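import Pool.Agent.Run7.h128.SI.Local
import Pool.Agent.W956.KF.Growth

set_option autoImplicit false
set_option linter.unusedSectionVars false

/-!
# From third derivatives to the rank of matrix multiplication
-/

namespace Run7.h128.SI

open Finset MvPolynomial Matrix Pool.Agent.H522R2 Pool.Agent.H522R2.Circuit Pool.Agent.W956.KF

variable {m : ℕ}

/-! ### Conjugation by a diagonal matrix of signs -/

/-- substitution `x_{ij} ↦ s_i s_j x_{ij}` -/
noncomputable def sg (s : Fin m → ℝ) :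
    MvPolynomial (Fin m × Fin m) ℂ →ₐ[ℂ] MvPolynomial (Fin m × Fin m) ℂ :=
  aeval fun p => C ((s p.1 * s p.2 : ℝ) : ℂ) * X p

/-- conjugation by a diagonal matrix -/
noncomputable def cj (s : Fin m → ℝ) (Y : Matrix (Fin m) (Fin m) ℝ) : Matrix (Fin m) (Fin m) ℝ :=
  diagonal s * Y * diagonal s

theorem cj_apply (s : Fin m → ℝ) (Y : Matrix (Fin m) (Fin m) ℝ) (a b : Fin m) :
    cj s Y a b = s a * s b * Y a b := by
  unfold cj
  rw [mul_diagonal, diagonal_mul]
  ring

theorem eval_sg (s : Fin m → ℝ) (X : Matrix (Fin m) (Fin m) ℝ)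
    (g : MvPolynomial (Fin m × Fin m) ℂ) : eval (pt X) (sg s g) = eval (pt (cj s X)) g := by
  induction g using MvPolynomial.induction_on with
  | C c => simp [sg]
  | add p q hp hq => rw [map_add, map_add, map_add, hp, hq]
  | mul_X p x hp =>
    rw [map_mul, map_mul, map_mul, hp]
    congr 1
    simp only [sg, aeval_X, map_mul, eval_C, eval_X, pt]
    rw [cj_apply]
    push_cast
    ring

theorem dd_sg (s : Fin m → ℝ) (Y : Matrix (Fin m) (Fin m) ℝ)
    (g : MvPolynomial (Fin m × Fin m) ℂ) :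
    dd (pt Y) (sg s g) = sg s (dd (pt (cj s Y)) g) := by
  induction g using MvPolynomial.induction_on with
  | C c =>
    rw [dd_C, map_zero]
    have : sg s (C c) = C c := by simp [sg]
    rw [this, dd_C]
  | add p q hp hq => rw [map_add, map_add, map_add, map_add, hp, hq]
  | mul_X p x hp =>
    rw [map_mul, dd_mul, dd_mul, hp, map_add, map_mul, map_mul]
    congr 2
    have h1 : sg s (X x) = C ((s x.1 * s x.2 : ℝ) : ℂ) * X x := by simp [sg]
    rw [h1, dd_C_mul, dd_X, dd_X]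
    have h2 : sg s (C (pt (cj s Y) x)) = C (pt (cj s Y) x) := by simp [sg]
    rw [h2, ← map_mul]
    congr 1
    unfold pt
    rw [cj_apply]
    push_cast
    ring

theorem cj_symm (s : Fin m → ℝ) {Y : Matrix (Fin m) (Fin m) ℝ} (hY : Y.IsSymm) :
    (cj s Y).IsSymm := by
  ext a b
  rw [transpose_apply, cj_apply, cj_apply, hY.apply a b]
  ring

theorem cj_diag (s : Fin m → ℝ) (hs : ∀ a, s a * s a = 1) (l : Fin m → ℝ) :
    cj s (diagonal l) = diagonal l := by
  ext a b
  rw [cj_apply]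
  by_cases h : a = b
  · subst h
    rw [hs, one_mul]
  · rw [diagonal_apply_ne _ h, mul_zero]

theorem T3_cj {f : MvPolynomial (Fin m × Fin m) ℂ} (hf : OInv f) (s : Fin m → ℝ)
    (hs : ∀ a, s a * s a = 1) (l : Fin m → ℝ) {X Y Z : Matrix (Fin m) (Fin m) ℝ}
    (hX : X.IsSymm) (hY : Y.IsSymm) (hZ : Z.IsSymm) :
    T3 f l X Y Z = T3 f l (cj s X) (cj s Y) (cj s Z) := by
  have h0 : VanSym (sg s f - f) := by
    intro W hW
    rw [map_sub, eval_sg]
    have h1 : (diagonal s) * (diagonal s)ᵀ = 1 := by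
      rw [diagonal_transpose, diagonal_mul_diagonal]
      simp [hs]
    have h2 := hf (diagonal s) h1 W hW
    rw [diagonal_transpose] at h2
    unfold cj
    rw [h2, sub_self]
  have h1 := ((h0.dd hZ).dd hY).dd hX (diagonal l) (diag_symm l)
  rw [map_sub, map_sub, map_sub, map_sub, dd_sg, dd_sg, dd_sg, eval_sg, cj_diag s hs] at h1
  unfold T3
  exact (sub_eq_zero.1 h1).symm

theorem cj_Sy (s : Fin m → ℝ) (i j : Fin m) : cj s (Sy i j) = (s i * s j) • Sy i j := by
  ext a b
  rw [cj_apply]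
  unfold Sy
  simp only [Matrix.smul_apply, Matrix.add_apply, Matrix.single_apply, smul_eq_mul]
  by_cases h1 : i = a ∧ j = b
  · obtain ⟨rfl, rfl⟩ := h1
    rfl
  · by_cases h2 : j = a ∧ i = b
    · obtain ⟨rfl, rfl⟩ := h2
      ring
    · simp [h1, h2]

theorem T3_smul (f : MvPolynomial (Fin m × Fin m) ℂ) (l : Fin m → ℝ) (a b c : ℝ)
    (X Y Z : Matrix (Fin m) (Fin m) ℝ) :
    T3 f l (a • X) (b • Y) (c • Z) = ((a * b * c : ℝ) : ℂ) * T3 f l X Y Z := by
  unfold T3
  simp only [pt_smul, dd_smul, Derivation.map_smul, smul_eval]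
  push_cast
  ring

theorem T3_sign {f : MvPolynomial (Fin m × Fin m) ℂ} (hf : OInv f) (s : Fin m → ℝ)
    (hs : ∀ a, s a * s a = 1) (l : Fin m → ℝ) (i j j' k k' i' : Fin m)
    (h : s i * s j * (s j' * s k) * (s k' * s i') = -1) :
    T3 f l (Sy i j) (Sy j' k) (Sy k' i') = 0 := by
  have h1 := T3_cj hf s hs l (Sy_symm i j) (Sy_symm j' k) (Sy_symm k' i')
  rw [cj_Sy, cj_Sy, cj_Sy, T3_smul, h] at h1
  push_cast at h1
  have h2 : (2 : ℂ) * T3 f l (Sy i j) (Sy j' k) (Sy k' i') = 0 := by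
    linear_combination h1
  exact (mul_eq_zero.1 h2).resolve_left two_ne_zero

/-- three disjoint families of indices -/
structure Fam (m n : ℕ) where
  I : Fin n → Fin m
  J : Fin n → Fin m
  K : Fin n → Fin m
  hI : Function.Injective I
  hJ : Function.Injective J
  hK : Function.Injective K
  hIJ : ∀ a b, I a ≠ J b
  hJK : ∀ a b, J a ≠ K b
  hIK : ∀ a b, I a ≠ K b

theorem T3_fam {f : MvPolynomial (Fin m × Fin m) ℂ} (hf : OInv f) {n : ℕ} (F : Fam m n)
    (l : Fin m → ℝ) (i i' j j' k k' : Fin n) (h : ¬ (i = i' ∧ j = j' ∧ k = k')) :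
    T3 f l (Sy (F.I i) (F.J j)) (Sy (F.J j') (F.K k)) (Sy (F.K k') (F.I i')) = 0 := by
  have hs : ∀ x : Fin m, ∀ a : Fin m, (if a = x then (-1 : ℝ) else 1) *
      (if a = x then (-1 : ℝ) else 1) = 1 := by
    intro x a
    split_ifs <;> norm_num
  by_cases h1 : i = i'
  · by_cases h2 : j = j'
    · have h3 : k ≠ k' := fun h3 => h ⟨h1, h2, h3⟩
      refine T3_sign hf (fun a => if a = F.K k then -1 else 1) (hs _) l _ _ _ _ _ _ ?_
      rw [if_neg (F.hIK _ _), if_neg (F.hJK _ _), if_neg (F.hJK _ _), if_pos rfl,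
        if_neg (fun e => h3 (F.hK e).symm), if_neg (F.hIK _ _)]
      norm_num
    · refine T3_sign hf (fun a => if a = F.J j then -1 else 1) (hs _) l _ _ _ _ _ _ ?_
      rw [if_neg (F.hIJ _ _), if_pos rfl, if_neg (fun e => h2 (F.hJ e).symm),
        if_neg (F.hJK _ _).symm, if_neg (F.hJK _ _).symm, if_neg (F.hIJ _ _)]
      norm_num
  · refine T3_sign hf (fun a => if a = F.I i then -1 else 1) (hs _) l _ _ _ _ _ _ ?_
    rw [if_pos rfl, if_neg (F.hIJ _ _).symm, if_neg (F.hIJ _ _).symm,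
      if_neg (F.hIK _ _).symm, if_neg (F.hIK _ _).symm, if_neg (fun e => h1 (F.hI e).symm)]
    norm_num

/-! ### Rank -/

theorem rankLE_of_fintype {K : Type*} [Field K] {a b c : ℕ} {ι : Type*} [Fintype ι]
    (U : ι → Matrix (Fin a) (Fin b) K) (V : ι → Matrix (Fin b) (Fin c) K)
    (W : ι → Matrix (Fin a) (Fin c) K)
    (h : ∀ (i i' : Fin a) (j j' : Fin b) (k k' : Fin c),
      ∑ l, U l i j * V l j' k * W l i' k' = if i = i' ∧ j = j' ∧ k = k' then 1 else 0) :
    RankLE K a b c (Fintype.card ι) := by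
  let e := (Fintype.equivFin ι).symm
  refine ⟨fun l => U (e l), fun l => V (e l), fun l => W (e l), fun i i' j j' k k' => ?_⟩
  rw [← h i i' j j' k k']
  exact Equiv.sum_comp e fun l => U l i j * V l j' k * W l i' k'

/-- the third derivatives in the directions given by three families -/
theorem exists_terms (C : Circuit ℂ (Fin m × Fin m)) (v : Fin C.nodes) (l : Fin m → ℝ) {n : ℕ}
    (F : Fam m n) :
    ∃ (U V W : {h // h ∈ NS C} × Fin 6 → Fin n → Fin n → ℂ), ∀ i i' j j' k k',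
      T3 (C.poly v) l (Sy (F.I i) (F.J j)) (Sy (F.J j') (F.K k)) (Sy (F.K k') (F.I i')) =
        ∑ t, U t i j * V t j' k * W t i' k' := by
  obtain ⟨P, Q, R, h⟩ := third_rank C (pt (diagonal l)) v
  refine ⟨fun t i j => (![R t.1, R t.1, P t.1, Q t.1, P t.1, Q t.1] t.2) (pt (Sy (F.I i) (F.J j))),
    fun t j k => (![P t.1, Q t.1, R t.1, R t.1, Q t.1, P t.1] t.2) (pt (Sy (F.J j) (F.K k))),
    fun t i k => (![Q t.1, P t.1, Q t.1, P t.1, R t.1, R t.1] t.2) (pt (Sy (F.K k) (F.I i))),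
    fun i i' j j' k k' => ?_⟩
  unfold T3
  rw [h, Fintype.sum_prod_type, ← Finset.sum_coe_sort (NS C)]
  refine Fintype.sum_congr _ _ fun g => ?_
  rw [Fin.sum_univ_six]
  simp only [Fin.isValue, Matrix.cons_val_zero, Matrix.cons_val_one, Matrix.cons_val]
  ring

theorem rank_case_one (C : Circuit ℂ (Fin m × Fin m)) (v : Fin C.nodes) (hf : OInv (C.poly v))
    (l : Fin m → ℝ) {n : ℕ} (F : Fam m n) (t : Fin n → ℂ) (ht : ∀ k, t k ≠ 0)
    (h : ∀ i j k, T3 (C.poly v) l (Sy (F.I i) (F.J j)) (Sy (F.J j) (F.K k))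
      (Sy (F.K k) (F.I i)) = t k) :
    RankLE ℂ n n n (12 * C.nonscalarCount) := by
  obtain ⟨U, V, W, h1⟩ := exists_terms C v l F
  have h2 := rankLE_of_fintype (K := ℂ) (fun t => Matrix.of (U t))
    (fun s => Matrix.of fun j k => V s j k * (t k)⁻¹) (fun t => Matrix.of (W t)) ?_
  · refine h2.mono ?_
    rw [Fintype.card_prod, Fintype.card_coe, card_NS, Fintype.card_fin]
    omega
  · intro i i' j j' k k'
    simp only [Matrix.of_apply]
    have e : ∑ s, U s i j * (V s j' k * (t k)⁻¹) * W s i' k' =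
        (t k)⁻¹ * ∑ s, U s i j * V s j' k * W s i' k' := by
      rw [mul_sum]
      exact sum_congr rfl fun s _ => by ring
    rw [e, ← h1]
    by_cases hc : i = i' ∧ j = j' ∧ k = k'
    · rw [if_pos hc]
      obtain ⟨rfl, rfl, rfl⟩ := hc
      rw [h, inv_mul_cancel₀ (ht k)]
    · rw [if_neg hc, T3_fam hf F l i i' j j' k k' hc, mul_zero]

theorem rank_case_two (C : Circuit ℂ (Fin m × Fin m)) (v : Fin C.nodes) (hf : OInv (C.poly v))
    (l : Fin m → ℝ) {n : ℕ} (F : Fam m n) (c : ℂ) (r : ℝ) (hr : r ≠ 0)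
    (h : ∀ i j k, (c * T3 (C.poly v) l (Sy (F.I i) (F.J j)) (Sy (F.J j) (F.K k))
      (Sy (F.K k) (F.I i))).re = r) :
    RankLE ℂ n n n (12 * C.nonscalarCount) := by
  obtain ⟨U, V, W, h1⟩ := exists_terms C v l F
  have h2 := rankLE_of_fintype (K := ℂ) (ι := ({h // h ∈ NS C} × Fin 6) × Bool)
    (fun t => Matrix.of fun i j => if t.2 then c * U t.1 i j * (2 * (r : ℂ))⁻¹ else
      star (c * U t.1 i j) * (2 * (r : ℂ))⁻¹)
    (fun t => Matrix.of fun i j => if t.2 then V t.1 i j else star (V t.1 i j))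
    (fun t => Matrix.of fun i j => if t.2 then W t.1 i j else star (W t.1 i j)) ?_
  · refine h2.mono ?_
    rw [Fintype.card_prod, Fintype.card_prod, Fintype.card_coe, card_NS, Fintype.card_fin,
      Fintype.card_bool]
    omega
  · intro i i' j j' k k'
    simp only [Matrix.of_apply]
    rw [Fintype.sum_prod_type]
    simp only [Fintype.sum_bool, if_true, Bool.false_eq_true, if_false]
    rw [sum_add_distrib]
    have e1 : ∑ s, c * U s i j * (2 * (r : ℂ))⁻¹ * V s j' k * W s i' k' =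
        (2 * (r : ℂ))⁻¹ * (c * ∑ s, U s i j * V s j' k * W s i' k') := by
      rw [mul_sum, mul_sum]
      exact sum_congr rfl fun s _ => by ring
    have e2 : ∑ s, star (c * U s i j) * (2 * (r : ℂ))⁻¹ * star (V s j' k) * star (W s i' k') =
        (2 * (r : ℂ))⁻¹ * star (c * ∑ s, U s i j * V s j' k * W s i' k') := by
      rw [star_mul', star_sum, mul_sum, mul_sum]
      refine sum_congr rfl fun s _ => ?_
      simp only [star_mul']
      ring
    rw [e1, e2, ← mul_add, ← h1]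
    have hr' : (2 * (r : ℂ)) ≠ 0 := by
      simpa using hr
    by_cases hc : i = i' ∧ j = j' ∧ k = k'
    · rw [if_pos hc]
      obtain ⟨rfl, rfl, rfl⟩ := hc
      have h3 := h i j k
      have h4 : ∀ z : ℂ, z + star z = ((2 * z.re : ℝ) : ℂ) := fun z => Complex.add_conj z
      rw [h4, h3]
      push_cast
      rw [inv_mul_cancel₀ hr']
    · rw [if_neg hc, T3_fam hf F l i i' j j' k k' hc]
      simp

end Run7.h128.SI
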