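import Pool.Agent.W956.KF.Defs

set_option autoImplicit false
set_option linter.unusedSectionVars false

/-!
# Third derivatives of a polynomial computed by a circuit

The trilinear form given by the third derivatives at a point, of a polynomial computed by a circuit
with `N` nonscalar multiplications, is a sum of `6 N` products of three linear forms.
-/

namespace Run7.h128.SI

open Finset MvPolynomial Pool.Agent.H522R2 Pool.Agent.H522R2.Circuit Pool.Agent.W956.KF

variable {K V : Type*} [Field K] [Fintype V] [DecidableEq V]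

/-- the derivative in the direction `a` -/
noncomputable def dd (a : V → K) : Derivation K (MvPolynomial V K) (MvPolynomial V K) :=
  ∑ x, a x • pderiv x

theorem dd_apply (a : V → K) (p : MvPolynomial V K) : dd a p = ∑ x, a x • pderiv x p := by
  have h : ∀ s : Finset V, (∑ x ∈ s, a x • pderiv x : Derivation K (MvPolynomial V K)
      (MvPolynomial V K)) p = ∑ x ∈ s, a x • pderiv x p := by
    intro s
    induction s using Finset.induction_on with
    | empty => simp
    | insert x s hx ih =>
      rw [sum_insert hx, sum_insert hx, Derivation.add_apply, ih, Derivation.smul_apply]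
  exact h univ

theorem dd_X (a : V → K) (x : V) : dd a (X x) = C (a x) := by
  rw [dd_apply, Finset.sum_eq_single x]
  · simp [smul_eq_C_mul]
  · intro y _ hy
    rw [pderiv_X_of_ne hy.symm, smul_zero]
  · intro h
    exact absurd (mem_univ x) h

theorem dd_C (a : V → K) (c : K) : dd a (C c) = 0 := by
  rw [← algebraMap_eq]
  exact Derivation.map_algebraMap _ _

theorem dd_add (a b : V → K) (p : MvPolynomial V K) : dd (a + b) p = dd a p + dd b p := by
  simp only [dd_apply, Pi.add_apply, add_smul, sum_add_distrib]

theorem dd_smul (c : K) (a : V → K) (p : MvPolynomial V K) : dd (c • a) p = c • dd a p := by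
  simp only [dd_apply, Pi.smul_apply, smul_eq_mul, mul_smul, smul_sum]

theorem dd_zero (p : MvPolynomial V K) : dd (0 : V → K) p = 0 := by
  simp [dd_apply]

theorem dd_neg (a : V → K) (p : MvPolynomial V K) : dd (-a) p = - dd a p := by
  simp [dd_apply]

theorem dd_comm (a b : V → K) (p : MvPolynomial V K) : dd a (dd b p) = dd b (dd a p) := by
  have h : ⁅dd a, dd b⁆ = (0 : Derivation K (MvPolynomial V K) (MvPolynomial V K)) := by
    apply MvPolynomial.derivation_ext
    intro x
    rw [Derivation.commutator_apply, dd_X, dd_X, dd_C, dd_C]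
    simp
  have h2 := congrArg (fun D => D p) h
  simp only [Derivation.commutator_apply, Derivation.coe_zero, Pi.zero_apply] at h2
  exact sub_eq_zero.1 h2

/-- the first derivative at `x₀`, as a linear form in the direction -/
noncomputable def l1 (x₀ : V → K) (p : MvPolynomial V K) : (V → K) →ₗ[K] K where
  toFun a := eval x₀ (dd a p)
  map_add' a b := by rw [dd_add, map_add]
  map_smul' c a := by rw [dd_smul, smul_eval, RingHom.id_apply, smul_eq_mul]

theorem l1_apply (x₀ : V → K) (p : MvPolynomial V K) (a : V → K) :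
    l1 x₀ p a = eval x₀ (dd a p) := rfl

/-- first input of a gate -/
noncomputable def pin (C : Circuit K V) (g : Fin C.nodes) : MvPolynomial V K := C.poly (opd C g false)

/-- second input of a gate -/
noncomputable def qin (C : Circuit K V) (g : Fin C.nodes) : MvPolynomial V K := C.poly (opd C g true)

open Classical in
/-- the nonscalar gates -/
noncomputable def NS (C : Circuit K V) : Finset (Fin C.nodes) := univ.filter fun g => C.IsNonscalar g

theorem card_NS (C : Circuit K V) : (NS C).card = C.nonscalarCount := by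
  classical
  unfold NS nonscalarCount
  rw [Nat.card_eq_fintype_card, Fintype.card_subtype]

theorem mem_NS {C : Circuit K V} {g : Fin C.nodes} : g ∈ NS C ↔ C.IsNonscalar g := by
  classical
  simp [NS]

/-- polynomials of degree at most one, for the purposes here -/
def Aff (p : MvPolynomial V K) : Prop := ∀ a b : V → K, dd a (dd b p) = 0

theorem Aff.add {p q : MvPolynomial V K} (hp : Aff p) (hq : Aff q) : Aff (p + q) := by
  intro a b
  rw [map_add, map_add, hp a b, hq a b, add_zero]

theorem Aff.sub {p q : MvPolynomial V K} (hp : Aff p) (hq : Aff q) : Aff (p - q) := by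
  intro a b
  rw [map_sub, map_sub, hp a b, hq a b, sub_zero]

theorem Aff.const (c : K) : Aff (C c : MvPolynomial V K) := by
  intro a b
  rw [dd_C, map_zero]

theorem Aff.var (x : V) : Aff (X x : MvPolynomial V K) := by
  intro a b
  rw [dd_X, dd_C]

theorem dd_C_mul (a : V → K) (c : K) (p : MvPolynomial V K) : dd a (C c * p) = C c * dd a p := by
  rw [← smul_eq_C_mul, Derivation.map_smul, smul_eq_C_mul]

theorem Aff.C_mul {p : MvPolynomial V K} (c : K) (hp : Aff p) : Aff (C c * p) := by
  intro a b
  rw [dd_C_mul, dd_C_mul, hp a b, mul_zero]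

/-- the polynomial at a node is a combination of the centred products at the nonscalar gates and a
polynomial of degree at most one -/
theorem decomp (C : Circuit K V) (x₀ : V → K) (k : Fin C.nodes) :
    ∃ (κ : Fin C.nodes → K) (ℓ : MvPolynomial V K), Aff ℓ ∧
      C.poly k = ℓ + ∑ g ∈ NS C, MvPolynomial.C (κ g) *
        ((pin C g - MvPolynomial.C (eval x₀ (pin C g))) *
          (qin C g - MvPolynomial.C (eval x₀ (qin C g)))) := by
  classical
  obtain ⟨k, hk⟩ := k
  induction k using Nat.strong_induction_on with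
  | _ k ih =>
    cases h : C.gate ⟨k, hk⟩ with
    | var x =>
      refine ⟨0, X x, Aff.var x, ?_⟩
      rw [poly, h]
      simp
    | const c =>
      refine ⟨0, MvPolynomial.C c, Aff.const c, ?_⟩
      rw [poly, h]
      simp
    | add i j =>
      obtain ⟨κ1, ℓ1, h1, e1⟩ := ih i i.2 (i.2.trans hk)
      obtain ⟨κ2, ℓ2, h2, e2⟩ := ih j j.2 (j.2.trans hk)
      refine ⟨κ1 + κ2, ℓ1 + ℓ2, h1.add h2, ?_⟩
      rw [poly, h]
      simp only [up]
      rw [e1, e2]
      simp only [Pi.add_apply, map_add, add_mul, sum_add_distrib]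
      ring
    | mul i j =>
      obtain ⟨κ1, ℓ1, h1, e1⟩ := ih i i.2 (i.2.trans hk)
      obtain ⟨κ2, ℓ2, h2, e2⟩ := ih j j.2 (j.2.trans hk)
      have ek : C.poly ⟨k, hk⟩ = C.poly ⟨i, i.2.trans hk⟩ * C.poly ⟨j, j.2.trans hk⟩ := by
        rw [poly, h]
        rfl
      by_cases hns : C.IsNonscalar ⟨k, hk⟩
      · set p := C.poly ⟨i, i.2.trans hk⟩ with hp
        set q := C.poly ⟨j, j.2.trans hk⟩ with hq
        have e3 : pin C ⟨k, hk⟩ = p := by
          unfold pin opd
          rw [h]
          rfl
        have e4 : qin C ⟨k, hk⟩ = q := by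
          unfold qin opd
          rw [h]
          rfl
        refine ⟨(eval x₀ p) • κ2 + (eval x₀ q) • κ1 +
              (Pi.single (⟨k, hk⟩ : Fin C.nodes) 1 : Fin C.nodes → K),
          MvPolynomial.C (eval x₀ p) * ℓ2 + MvPolynomial.C (eval x₀ q) * ℓ1
            - MvPolynomial.C (eval x₀ p * eval x₀ q),
          ((h2.C_mul _).add (h1.C_mul _)).sub (Aff.const _), ?_⟩
        have e5 : ∑ g ∈ NS C, MvPolynomial.C
            (((eval x₀ p) • κ2 + (eval x₀ q) • κ1 +
              (Pi.single (⟨k, hk⟩ : Fin C.nodes) 1 : Fin C.nodes → K)) g) *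
            ((pin C g - MvPolynomial.C (eval x₀ (pin C g))) *
              (qin C g - MvPolynomial.C (eval x₀ (qin C g)))) =
            MvPolynomial.C (eval x₀ p) * (∑ g ∈ NS C, MvPolynomial.C (κ2 g) *
              ((pin C g - MvPolynomial.C (eval x₀ (pin C g))) *
              (qin C g - MvPolynomial.C (eval x₀ (qin C g))))) +
            MvPolynomial.C (eval x₀ q) * (∑ g ∈ NS C, MvPolynomial.C (κ1 g) *
              ((pin C g - MvPolynomial.C (eval x₀ (pin C g))) *
              (qin C g - MvPolynomial.C (eval x₀ (qin C g))))) +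
            (p - MvPolynomial.C (eval x₀ p)) * (q - MvPolynomial.C (eval x₀ q)) := by
          have e6 : (p - MvPolynomial.C (eval x₀ p)) * (q - MvPolynomial.C (eval x₀ q)) =
              ∑ g ∈ NS C, MvPolynomial.C
                ((Pi.single (⟨k, hk⟩ : Fin C.nodes) 1 : Fin C.nodes → K) g) *
              ((pin C g - MvPolynomial.C (eval x₀ (pin C g))) *
              (qin C g - MvPolynomial.C (eval x₀ (qin C g)))) := by
            rw [Finset.sum_eq_single (⟨k, hk⟩ : Fin C.nodes)]
            · rw [Pi.single_eq_same, map_one, one_mul, e3, e4]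
            · intro g _ hg
              rw [Pi.single_eq_of_ne hg, map_zero, zero_mul]
            · intro hcon
              exact absurd (mem_NS.2 hns) hcon
          rw [e6, mul_sum, mul_sum, ← sum_add_distrib, ← sum_add_distrib]
          refine sum_congr rfl fun g _ => ?_
          simp only [Pi.add_apply, Pi.smul_apply, smul_eq_mul, map_add, map_mul]
          ring
        rw [e5, ek]
        have e7 : ∑ g ∈ NS C, MvPolynomial.C (κ2 g) *
              ((pin C g - MvPolynomial.C (eval x₀ (pin C g))) *
              (qin C g - MvPolynomial.C (eval x₀ (qin C g)))) = q - ℓ2 :=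
          eq_sub_of_add_eq' e2.symm
        have e8 : ∑ g ∈ NS C, MvPolynomial.C (κ1 g) *
              ((pin C g - MvPolynomial.C (eval x₀ (pin C g))) *
              (qin C g - MvPolynomial.C (eval x₀ (qin C g)))) = p - ℓ1 :=
          eq_sub_of_add_eq' e1.symm
        rw [e7, e8, map_mul]
        ring
      · -- one of the inputs is constant
        have hcase : (∃ c, C.poly ⟨i, i.2.trans hk⟩ = MvPolynomial.C c) ∨
            ∃ c, C.poly ⟨j, j.2.trans hk⟩ = MvPolynomial.C c := by
          by_contra hcon
          push Not at hcon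
          exact hns ⟨i, j, h, fun c => hcon.1 c, fun c => hcon.2 c⟩
        rcases hcase with ⟨c, hc⟩ | ⟨c, hc⟩
        · refine ⟨c • κ2, MvPolynomial.C c * ℓ2, h2.C_mul c, ?_⟩
          rw [ek, hc, e2, mul_add, mul_sum]
          congr 1
          refine sum_congr rfl fun g _ => ?_
          simp only [Pi.smul_apply, smul_eq_mul, map_mul]
          ring
        · refine ⟨c • κ1, MvPolynomial.C c * ℓ1, h1.C_mul c, ?_⟩
          rw [ek, hc, e1, mul_comm, mul_add, mul_sum]
          congr 1
          refine sum_congr rfl fun g _ => ?_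
          simp only [Pi.smul_apply, smul_eq_mul, map_mul]
          ring

theorem dd_mul (a : V → K) (p q : MvPolynomial V K) :
    dd a (p * q) = dd a p * q + p * dd a q := by
  rw [Derivation.leibniz, smul_eq_mul, smul_eq_mul]
  ring

/-- second derivatives -/
theorem second (C : Circuit K V) (x₀ : V → K) (k : Fin C.nodes) (κ : Fin C.nodes → K)
    (ℓ : MvPolynomial V K) (hℓ : Aff ℓ)
    (hk : C.poly k = ℓ + ∑ g ∈ NS C, MvPolynomial.C (κ g) *
        ((pin C g - MvPolynomial.C (eval x₀ (pin C g))) *
          (qin C g - MvPolynomial.C (eval x₀ (qin C g))))) (a b : V → K) :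
    eval x₀ (dd a (dd b (C.poly k))) = ∑ g ∈ NS C, κ g *
      (l1 x₀ (pin C g) a * l1 x₀ (qin C g) b + l1 x₀ (pin C g) b * l1 x₀ (qin C g) a) := by
  rw [hk, map_add, map_add, hℓ a b, zero_add, map_sum, map_sum, map_sum]
  refine sum_congr rfl fun g _ => ?_
  simp only [dd_mul, map_sub, map_add, dd_C, sub_zero, map_mul,
    eval_C, l1_apply, sub_self, zero_mul, mul_zero, zero_add, add_zero]
  ring

/-- third derivatives -/
theorem third (C : Circuit K V) (x₀ : V → K) (k : Fin C.nodes) (κ : Fin C.nodes → K)
    (ℓ : MvPolynomial V K) (hℓ : Aff ℓ)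
    (hk : C.poly k = ℓ + ∑ g ∈ NS C, MvPolynomial.C (κ g) *
        ((pin C g - MvPolynomial.C (eval x₀ (pin C g))) *
          (qin C g - MvPolynomial.C (eval x₀ (qin C g))))) (a b c : V → K) :
    eval x₀ (dd a (dd b (dd c (C.poly k)))) = ∑ g ∈ NS C, κ g *
      (l1 x₀ (pin C g) a * eval x₀ (dd b (dd c (qin C g))) +
       l1 x₀ (pin C g) b * eval x₀ (dd a (dd c (qin C g))) +
       l1 x₀ (pin C g) c * eval x₀ (dd a (dd b (qin C g))) +
       l1 x₀ (qin C g) a * eval x₀ (dd b (dd c (pin C g))) +
       l1 x₀ (qin C g) b * eval x₀ (dd a (dd c (pin C g))) +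
       l1 x₀ (qin C g) c * eval x₀ (dd a (dd b (pin C g)))) := by
  rw [hk, map_add (dd c), map_add (dd b), map_add (dd a), hℓ b c, map_zero, zero_add, map_sum,
    map_sum, map_sum, map_sum]
  refine sum_congr rfl fun g _ => ?_
  simp only [dd_mul, map_sub, map_add, dd_C, sub_zero, map_mul,
    eval_C, l1_apply, sub_self, zero_mul, mul_zero, zero_add, add_zero]
  ring

/-- **The third derivatives of a polynomial computed by a circuit.** -/
theorem third_rank (C : Circuit K V) (x₀ : V → K) (k : Fin C.nodes) :
    ∃ P Q R : Fin C.nodes → (V → K) →ₗ[K] K, ∀ a b c : V → K,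
      eval x₀ (dd a (dd b (dd c (C.poly k)))) = ∑ h ∈ NS C,
        ((P h b * Q h c + P h c * Q h b) * R h a + (P h a * Q h c + P h c * Q h a) * R h b +
          (P h a * Q h b + P h b * Q h a) * R h c) := by
  classical
  choose κ ℓ hℓ hκ using decomp C x₀
  refine ⟨fun h => l1 x₀ (pin C h), fun h => l1 x₀ (qin C h),
    fun h => ∑ g ∈ NS C, κ k g • (κ (opd C g true) h • l1 x₀ (pin C g) +
      κ (opd C g false) h • l1 x₀ (qin C g)), fun a b c => ?_⟩
  rw [third C x₀ k (κ k) (ℓ k) (hℓ k) (hκ k) a b c]
  have hq : ∀ g a b, eval x₀ (dd a (dd b (qin C g))) = ∑ h ∈ NS C, κ (opd C g true) h *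
      (l1 x₀ (pin C h) a * l1 x₀ (qin C h) b + l1 x₀ (pin C h) b * l1 x₀ (qin C h) a) :=
    fun g a b => second C x₀ (opd C g true) (κ (opd C g true)) (ℓ (opd C g true))
      (hℓ (opd C g true)) (hκ (opd C g true)) a b
  have hp : ∀ g a b, eval x₀ (dd a (dd b (pin C g))) = ∑ h ∈ NS C, κ (opd C g false) h *
      (l1 x₀ (pin C h) a * l1 x₀ (qin C h) b + l1 x₀ (pin C h) b * l1 x₀ (qin C h) a) :=
    fun g a b => second C x₀ (opd C g false) (κ (opd C g false)) (ℓ (opd C g false))
      (hℓ (opd C g false)) (hκ (opd C g false)) a b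
  simp only [hq, hp]
  simp only [LinearMap.sum_apply, LinearMap.smul_apply, LinearMap.add_apply, smul_eq_mul,
    mul_sum, ← sum_add_distrib]
  rw [sum_comm]
  refine sum_congr rfl fun h _ => sum_congr rfl fun g _ => ?_
  ring

end Run7.h128.SI
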