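import Pool.Agent.Run7.h128.SI.Jet

set_option autoImplicit false
set_option linter.unusedSectionVars false

/-!
# Third derivatives, at a diagonal matrix, of a polynomial which is invariant under orthogonal
conjugation of symmetric matrices
-/

namespace Run7.h128.SI

open Finset MvPolynomial Matrix

theorem hasDerivAt_eval {V : Type*} [Fintype V] [DecidableEq V] (f : MvPolynomial V ℂ)
    (γ : ℝ → V → ℂ) (γ' : V → ℂ) (t₀ : ℝ) (h : ∀ x, HasDerivAt (fun t => γ t x) (γ' x) t₀) :
    HasDerivAt (fun t => eval (γ t) f) (eval (γ t₀) (dd γ' f)) t₀ := by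
  induction f using MvPolynomial.induction_on with
  | C c => simpa [dd_C] using hasDerivAt_const t₀ c
  | add p q hp hq =>
    have h1 := hp.add hq
    simp only [map_add]
    exact h1
  | mul_X p x hp =>
    have h1 := hp.mul (h x)
    simp only [dd_mul, dd_X, map_mul, map_add, eval_C, eval_X]
    exact h1

/-- vector fields with polynomial coefficients -/
noncomputable def vf {K V : Type*} [Field K] [Fintype V] [DecidableEq V]
    (w : V → MvPolynomial V K) : Derivation K (MvPolynomial V K) (MvPolynomial V K) :=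
  ∑ x, w x • pderiv x

section vf

variable {K V : Type*} [Field K] [Fintype V] [DecidableEq V]

theorem vf_apply (w : V → MvPolynomial V K) (p : MvPolynomial V K) :
    vf w p = ∑ x, w x * pderiv x p := by
  have h : ∀ s : Finset V, (∑ x ∈ s, w x • pderiv x : Derivation K (MvPolynomial V K)
      (MvPolynomial V K)) p = ∑ x ∈ s, w x * pderiv x p := by
    intro s
    induction s using Finset.induction_on with
    | empty => simp
    | insert x s hx ih =>
      rw [sum_insert hx, sum_insert hx, Derivation.add_apply, ih, Derivation.smul_apply,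
        smul_eq_mul]
  exact h univ

theorem vf_X (w : V → MvPolynomial V K) (x : V) : vf w (X x) = w x := by
  rw [vf_apply, Finset.sum_eq_single x]
  · simp
  · intro y _ hy
    rw [pderiv_X_of_ne hy.symm, mul_zero]
  · intro h
    exact absurd (mem_univ x) h

theorem vf_C (a : V → K) (p : MvPolynomial V K) : vf (fun x => C (a x)) p = dd a p := by
  rw [vf_apply, dd_apply]
  exact sum_congr rfl fun x _ => by rw [smul_eq_C_mul]

theorem eval_vf (w : V → MvPolynomial V K) (p : MvPolynomial V K) (x₀ : V → K) :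
    eval x₀ (vf w p) = eval x₀ (dd (fun x => eval x₀ (w x)) p) := by
  rw [vf_apply, dd_apply, map_sum, map_sum]
  exact sum_congr rfl fun x _ => by rw [map_mul, smul_eval]

theorem dd_vf (b : V → K) (w : V → MvPolynomial V K) (p : MvPolynomial V K) :
    dd b (vf w p) = vf w (dd b p) + vf (fun x => dd b (w x)) p := by
  have h : ⁅dd b, vf w⁆ = vf (fun x => dd b (w x)) := by
    apply MvPolynomial.derivation_ext
    intro x
    rw [Derivation.commutator_apply, vf_X, vf_X, dd_X, ← algebraMap_eq, Derivation.map_algebraMap,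
      sub_zero]
  have h2 := congrArg (fun D => D p) h
  simp only [Derivation.commutator_apply] at h2
  rw [← h2]
  ring

end vf

variable {m : ℕ}

/-- the point given by a real matrix -/
noncomputable def pt (X : Matrix (Fin m) (Fin m) ℝ) : Fin m × Fin m → ℂ :=
  fun p => ((X p.1 p.2 : ℝ) : ℂ)

theorem pt_add (X Y : Matrix (Fin m) (Fin m) ℝ) : pt (X + Y) = pt X + pt Y := by
  funext p
  simp [pt]

theorem pt_neg (X : Matrix (Fin m) (Fin m) ℝ) : pt (-X) = - pt X := by
  funext p
  simp [pt]

theorem pt_smul (c : ℝ) (X : Matrix (Fin m) (Fin m) ℝ) : pt (c • X) = (c : ℂ) • pt X := by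
  funext p
  simp [pt]

theorem pt_zero : pt (0 : Matrix (Fin m) (Fin m) ℝ) = 0 := by
  funext p
  simp [pt]

/-- vanishing on the real symmetric matrices -/
def VanSym (G : MvPolynomial (Fin m × Fin m) ℂ) : Prop :=
  ∀ X : Matrix (Fin m) (Fin m) ℝ, X.IsSymm → eval (pt X) G = 0

theorem VanSym.dd {G : MvPolynomial (Fin m × Fin m) ℂ} (hG : VanSym G)
    {Y : Matrix (Fin m) (Fin m) ℝ} (hY : Y.IsSymm) : VanSym (dd (pt Y) G) := by
  intro X hX
  have h1 : HasDerivAt (fun t : ℝ => eval (pt (X + t • Y)) G)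
      (eval (pt (X + (0 : ℝ) • Y)) (SI.dd (pt Y) G)) 0 := by
    apply hasDerivAt_eval
    intro p
    have h2 : HasDerivAt (fun t : ℝ => X p.1 p.2 + t * Y p.1 p.2) (Y p.1 p.2) 0 := by
      have := ((hasDerivAt_id (0 : ℝ)).mul_const (Y p.1 p.2)).const_add (X p.1 p.2)
      simpa using this
    have h3 := h2.ofReal_comp
    exact h3
  have h4 : (fun t : ℝ => eval (pt (X + t • Y)) G) = fun _ => 0 := by
    funext t
    exact hG _ (hX.add (hY.smul t))
  rw [h4] at h1
  have h5 := h1.unique (hasDerivAt_const (0 : ℝ) (0 : ℂ))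
  rwa [zero_smul, add_zero] at h5

/-- invariance under orthogonal conjugation of symmetric matrices -/
def OInv (f : MvPolynomial (Fin m × Fin m) ℂ) : Prop :=
  ∀ R : Matrix (Fin m) (Fin m) ℝ, R * Rᵀ = 1 → ∀ X : Matrix (Fin m) (Fin m) ℝ, X.IsSymm →
    eval (pt (R * X * Rᵀ)) f = eval (pt X) f

/-- the matrix unit -/
abbrev E (i j : Fin m) : Matrix (Fin m) (Fin m) ℝ := Matrix.single i j 1

/-- symmetric matrix unit -/
noncomputable def Sy (i j : Fin m) : Matrix (Fin m) (Fin m) ℝ := E i j + E j i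

/-- antisymmetric matrix unit -/
noncomputable def An (i j : Fin m) : Matrix (Fin m) (Fin m) ℝ := E i j - E j i

theorem Sy_symm (i j : Fin m) : (Sy i j).IsSymm := by
  unfold Sy Matrix.IsSymm
  rw [transpose_add, transpose_single, transpose_single, add_comm]

theorem Sy_comm (i j : Fin m) : Sy i j = Sy j i := by
  unfold Sy
  rw [add_comm]

/-- rotation in a coordinate plane -/
noncomputable def rot (i j : Fin m) (t : ℝ) : Matrix (Fin m) (Fin m) ℝ :=
  1 + (Real.cos t - 1) • (E i i + E j j) + Real.sin t • An i j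

theorem rot_mul (i j : Fin m) (hij : i ≠ j) (t : ℝ) : rot i j t * (rot i j t)ᵀ = 1 := by
  have hT : (rot i j t)ᵀ = 1 + (Real.cos t - 1) • (E i i + E j j) - Real.sin t • An i j := by
    unfold rot An
    simp only [transpose_add, transpose_one, transpose_smul, transpose_sub, transpose_single]
    module
  have h1 : (E i i + E j j) * (E i i + E j j) = E i i + E j j := by
    simp [add_mul, mul_add, hij, hij.symm]
  have h2 : (E i i + E j j) * An i j = An i j := by
    unfold An
    simp [add_mul, mul_sub, hij, hij.symm]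
    try abel
  have h3 : An i j * (E i i + E j j) = An i j := by
    unfold An
    simp [mul_add, sub_mul, hij, hij.symm]
    try abel
  have h4 : An i j * An i j = -(E i i + E j j) := by
    unfold An
    simp [mul_sub, sub_mul, hij, hij.symm]
    abel
  rw [hT]
  unfold rot
  set P := E i i + E j j
  set A := An i j
  set c := Real.cos t - 1 with hc
  set s := Real.sin t with hs
  have h5 : (1 + c • P + s • A) * (1 + c • P - s • A) =
      1 + (2 * c) • P + (c * c) • (P * P) - (c * s) • (P * A) + (s * c) • (A * P) -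
        (s * s) • (A * A) := by
    simp only [mul_sub, mul_add, add_mul, mul_one, one_mul, smul_mul_assoc, mul_smul_comm]
    module
  rw [h5, h1, h2, h3, h4]
  have h6 : 2 * c + c * c + s * s = 0 := by
    rw [hc, hs]
    have := Real.sin_sq_add_cos_sq t
    nlinarith [this]
  have h7 : 1 + (2 * c) • P + (c * c) • P - (c * s) • A + (s * c) • A - (s * s) • (-P) =
      1 + (2 * c + c * c + s * s) • P := by
    module
  rw [h7, h6, zero_smul, add_zero]

/-- the linear vector field `X ↦ A X - X A` -/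
noncomputable def wf (A : Matrix (Fin m) (Fin m) ℝ) (p : Fin m × Fin m) :
    MvPolynomial (Fin m × Fin m) ℂ :=
  ∑ r, (C ((A p.1 r : ℝ) : ℂ) * X (r, p.2) - C ((A r p.2 : ℝ) : ℂ) * X (p.1, r))

theorem eval_wf (A X : Matrix (Fin m) (Fin m) ℝ) (p : Fin m × Fin m) :
    eval (pt X) (wf A p) = pt (A * X - X * A) p := by
  unfold wf pt
  rw [map_sum]
  simp only [map_sub, map_mul, eval_C, eval_X, Matrix.sub_apply, Matrix.mul_apply,
    sum_sub_distrib, Complex.ofReal_sub, Complex.ofReal_sum, Complex.ofReal_mul]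
  congr 1
  exact sum_congr rfl fun r _ => mul_comm _ _

theorem dd_wf (A Y : Matrix (Fin m) (Fin m) ℝ) (p : Fin m × Fin m) :
    dd (pt Y) (wf A p) = C (pt (A * Y - Y * A) p) := by
  unfold wf
  rw [map_sum]
  simp only [map_sub, dd_C_mul, dd_X, ← map_mul]
  unfold pt
  simp only [Matrix.sub_apply, Matrix.mul_apply,
    sum_sub_distrib, Complex.ofReal_sub, Complex.ofReal_sum, Complex.ofReal_mul, map_sub, map_sum]
  congr 1
  exact sum_congr rfl fun r _ => by rw [mul_comm]

theorem vf_wf_van {f : MvPolynomial (Fin m × Fin m) ℂ} (hf : OInv f) {i j : Fin m}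
    (hij : i ≠ j) : VanSym (vf (wf (An i j)) f) := by
  intro X hX
  rw [eval_vf]
  have h0 : (fun x => eval (pt X) (wf (An i j) x)) = pt (An i j * X - X * An i j) := by
    funext p
    exact eval_wf _ _ _
  rw [h0]
  have hr0 : rot i j 0 = 1 := by
    unfold rot
    simp
  have h1 : HasDerivAt (fun t : ℝ => eval (pt (rot i j t * X * (rot i j t)ᵀ)) f)
      (eval (pt (rot i j 0 * X * (rot i j 0)ᵀ)) (dd (pt (An i j * X - X * An i j)) f)) 0 := by
    apply hasDerivAt_eval
    intro p
    have hr : ∀ a b, HasDerivAt (fun t : ℝ => rot i j t a b) (An i j a b) 0 := by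
      intro a b
      have hc : HasDerivAt (fun t : ℝ => (Real.cos t - 1) * (E i i + E j j) a b)
          (-Real.sin 0 * (E i i + E j j) a b) 0 :=
        ((Real.hasDerivAt_cos 0).sub_const 1).mul_const _
      have hs : HasDerivAt (fun t : ℝ => Real.sin t * An i j a b)
          (Real.cos 0 * An i j a b) 0 := (Real.hasDerivAt_sin 0).mul_const _
      have h := (hc.const_add ((1 : Matrix (Fin m) (Fin m) ℝ) a b)).add hs
      simp only [Real.sin_zero, neg_zero, zero_mul, Real.cos_zero, one_mul, zero_add] at h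
      exact h
    have h2 : HasDerivAt (fun t : ℝ => (rot i j t * X * (rot i j t)ᵀ) p.1 p.2)
        ((An i j * X - X * An i j) p.1 p.2) 0 := by
      have h3 : HasDerivAt (fun t : ℝ => ∑ s, (∑ r, rot i j t p.1 r * X r s) * rot i j t p.2 s)
          (∑ s, ((∑ r, An i j p.1 r * X r s) * rot i j 0 p.2 s +
            (∑ r, rot i j 0 p.1 r * X r s) * An i j p.2 s)) 0 := by
        apply HasDerivAt.fun_sum
        intro s _
        refine HasDerivAt.mul ?_ (hr _ _)
        apply HasDerivAt.fun_sum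
        intro r _
        exact (hr _ _).mul_const _
      have h4 : (fun t : ℝ => (rot i j t * X * (rot i j t)ᵀ) p.1 p.2) =
          fun t : ℝ => ∑ s, (∑ r, rot i j t p.1 r * X r s) * rot i j t p.2 s := by
        funext t
        simp only [Matrix.mul_apply, transpose_apply]
      have hAn : (An i j)ᵀ = - An i j := by
        unfold An
        simp
      have h5 : (An i j * X - X * An i j) p.1 p.2 =
          ∑ s, ((∑ r, An i j p.1 r * X r s) * rot i j 0 p.2 s +
            (∑ r, rot i j 0 p.1 r * X r s) * An i j p.2 s) := by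
        have h6 : An i j * X - X * An i j = An i j * X * (rot i j 0)ᵀ +
            rot i j 0 * X * (An i j)ᵀ := by
          rw [hr0, hAn]
          simp [sub_eq_add_neg]
        rw [h6]
        simp only [Matrix.mul_apply, transpose_apply, Matrix.add_apply, sum_add_distrib]
      rw [h4, h5]
      exact h3
    exact h2.ofReal_comp
  have h7 : (fun t : ℝ => eval (pt (rot i j t * X * (rot i j t)ᵀ)) f) =
      fun _ => eval (pt X) f := by
    funext t
    exact hf _ (rot_mul i j hij t) X hX
  rw [h7, hr0] at h1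
  have h8 := h1.unique (hasDerivAt_const (0 : ℝ) (eval (pt X) f))
  rw [transpose_one, one_mul, mul_one] at h8
  exact h8

/-! ### Values at a diagonal matrix -/

/-- first derivative at a diagonal matrix -/
noncomputable def T1 (f : MvPolynomial (Fin m × Fin m) ℂ) (l : Fin m → ℝ)
    (Z : Matrix (Fin m) (Fin m) ℝ) : ℂ :=
  eval (pt (diagonal l)) (dd (pt Z) f)

/-- second derivative at a diagonal matrix -/
noncomputable def T2 (f : MvPolynomial (Fin m × Fin m) ℂ) (l : Fin m → ℝ)
    (Y Z : Matrix (Fin m) (Fin m) ℝ) : ℂ :=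
  eval (pt (diagonal l)) (dd (pt Y) (dd (pt Z) f))

/-- third derivative at a diagonal matrix -/
noncomputable def T3 (f : MvPolynomial (Fin m × Fin m) ℂ) (l : Fin m → ℝ)
    (X Y Z : Matrix (Fin m) (Fin m) ℝ) : ℂ :=
  eval (pt (diagonal l)) (dd (pt X) (dd (pt Y) (dd (pt Z) f)))

theorem com_diag (l : Fin m → ℝ) (i j : Fin m) :
    An i j * diagonal l - diagonal l * An i j = (l j - l i) • Sy i j := by
  ext a b
  unfold An Sy
  simp only [sub_mul, mul_sub, Matrix.sub_apply, Matrix.smul_apply, Matrix.add_apply,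
    mul_diagonal, diagonal_mul, smul_eq_mul, Matrix.single_apply]
  by_cases h1 : i = a ∧ j = b
  · obtain ⟨rfl, rfl⟩ := h1
    by_cases h2 : j = i
    · subst h2
      simp
    · simp [h2]
  · by_cases h2 : j = a ∧ i = b
    · obtain ⟨rfl, rfl⟩ := h2
      rw [if_neg h1]
      simp
      ring
    · simp [h1, h2]

theorem com_jk {i j k : Fin m} (hij : i ≠ j) (hjk : j ≠ k) (hik : i ≠ k) :
    An i j * Sy j k - Sy j k * An i j = Sy i k := by
  unfold An Sy
  simp [sub_mul, mul_sub, mul_add, add_mul, hij, hij.symm, hjk, hjk.symm, hik, hik.symm]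

theorem com_ki {i j k : Fin m} (hij : i ≠ j) (hjk : j ≠ k) (hik : i ≠ k) :
    An i j * Sy k i - Sy k i * An i j = - Sy j k := by
  unfold An Sy
  simp [sub_mul, mul_sub, mul_add, add_mul, hij, hij.symm, hjk, hjk.symm, hik, hik.symm]
  try abel

theorem com_ij {i j : Fin m} (hij : i ≠ j) :
    An i j * Sy i j - Sy i j * An i j = (2 : ℝ) • (E i i - E j j) := by
  unfold An Sy
  simp [sub_mul, mul_sub, mul_add, add_mul, hij, hij.symm]
  try module

theorem rel2_van {f : MvPolynomial (Fin m × Fin m) ℂ} (hf : OInv f) {i j : Fin m}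
    (hij : i ≠ j) {Y : Matrix (Fin m) (Fin m) ℝ} (hY : Y.IsSymm) :
    VanSym (vf (wf (An i j)) (dd (pt Y) f) + dd (pt (An i j * Y - Y * An i j)) f) := by
  have h := (vf_wf_van hf hij).dd hY
  rw [dd_vf] at h
  have h2 : (fun x => dd (pt Y) (wf (An i j) x)) =
      fun x => C (pt (An i j * Y - Y * An i j) x) := by
    funext x
    exact dd_wf _ _ _
  rw [h2, vf_C] at h
  exact h

theorem rel3_van {f : MvPolynomial (Fin m × Fin m) ℂ} (hf : OInv f) {i j : Fin m}
    (hij : i ≠ j) {Y Z : Matrix (Fin m) (Fin m) ℝ} (hY : Y.IsSymm) (hZ : Z.IsSymm) :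
    VanSym (vf (wf (An i j)) (dd (pt Z) (dd (pt Y) f)) +
      dd (pt (An i j * Z - Z * An i j)) (dd (pt Y) f) +
      dd (pt Z) (dd (pt (An i j * Y - Y * An i j)) f)) := by
  have h := (rel2_van hf hij hY).dd hZ
  rw [map_add, dd_vf] at h
  have h2 : (fun x => dd (pt Z) (wf (An i j) x)) =
      fun x => C (pt (An i j * Z - Z * An i j) x) := by
    funext x
    exact dd_wf _ _ _
  rw [h2, vf_C] at h
  exact h

theorem eval_diag_vf (g : MvPolynomial (Fin m × Fin m) ℂ) (l : Fin m → ℝ) (i j : Fin m) :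
    eval (pt (diagonal l)) (vf (wf (An i j)) g) =
      ((l j - l i : ℝ) : ℂ) * eval (pt (diagonal l)) (dd (pt (Sy i j)) g) := by
  rw [eval_vf]
  have h0 : (fun x => eval (pt (diagonal l)) (wf (An i j) x)) =
      ((l j - l i : ℝ) : ℂ) • pt (Sy i j) := by
    funext p
    rw [eval_wf, com_diag, pt_smul]
  rw [h0, dd_smul, smul_eval]

theorem diag_symm (l : Fin m → ℝ) : (diagonal l).IsSymm := by
  unfold Matrix.IsSymm
  rw [diagonal_transpose]

theorem rel2 {f : MvPolynomial (Fin m × Fin m) ℂ} (hf : OInv f) {i j : Fin m}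
    (hij : i ≠ j) (l : Fin m → ℝ) {Y : Matrix (Fin m) (Fin m) ℝ} (hY : Y.IsSymm) :
    ((l j - l i : ℝ) : ℂ) * T2 f l (Sy i j) Y + T1 f l (An i j * Y - Y * An i j) = 0 := by
  have h := rel2_van hf hij hY (diagonal l) (diag_symm l)
  rw [map_add, eval_diag_vf] at h
  exact h

theorem rel3 {f : MvPolynomial (Fin m × Fin m) ℂ} (hf : OInv f) {i j : Fin m}
    (hij : i ≠ j) (l : Fin m → ℝ) {Y Z : Matrix (Fin m) (Fin m) ℝ} (hY : Y.IsSymm)
    (hZ : Z.IsSymm) :
    ((l j - l i : ℝ) : ℂ) * T3 f l (Sy i j) Z Y + T2 f l (An i j * Z - Z * An i j) Y +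
      T2 f l Z (An i j * Y - Y * An i j) = 0 := by
  have h := rel3_van hf hij hY hZ (diagonal l) (diag_symm l)
  rw [map_add, map_add, eval_diag_vf] at h
  exact h

/-- the derivative of `x ↦ f (diag x)` in the variable `x i` -/
noncomputable def ph (f : MvPolynomial (Fin m × Fin m) ℂ) (l : Fin m → ℝ) (i : Fin m) : ℂ :=
  T1 f l (E i i)

theorem T1_sub (f : MvPolynomial (Fin m × Fin m) ℂ) (l : Fin m → ℝ)
    (X Y : Matrix (Fin m) (Fin m) ℝ) : T1 f l (X - Y) = T1 f l X - T1 f l Y := by
  unfold T1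
  rw [sub_eq_add_neg, pt_add, pt_neg, dd_add, dd_neg, map_add, map_neg, sub_eq_add_neg]

theorem T1_smul (f : MvPolynomial (Fin m × Fin m) ℂ) (l : Fin m → ℝ) (c : ℝ)
    (X : Matrix (Fin m) (Fin m) ℝ) : T1 f l (c • X) = (c : ℂ) * T1 f l X := by
  unfold T1
  rw [pt_smul, dd_smul, smul_eval]

theorem T2_neg_right (f : MvPolynomial (Fin m × Fin m) ℂ) (l : Fin m → ℝ)
    (X Y : Matrix (Fin m) (Fin m) ℝ) : T2 f l X (-Y) = - T2 f l X Y := by
  unfold T2
  rw [pt_neg, dd_neg, map_neg, map_neg]

theorem T2_comm (f : MvPolynomial (Fin m × Fin m) ℂ) (l : Fin m → ℝ)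
    (X Y : Matrix (Fin m) (Fin m) ℝ) : T2 f l X Y = T2 f l Y X := by
  unfold T2
  rw [dd_comm]

theorem T2_pair {f : MvPolynomial (Fin m × Fin m) ℂ} (hf : OInv f) {i j : Fin m}
    (hij : i ≠ j) (l : Fin m → ℝ) :
    ((l j - l i : ℝ) : ℂ) * T2 f l (Sy i j) (Sy i j) = -(2 * (ph f l i - ph f l j)) := by
  have h := rel2 hf hij l (Sy_symm i j)
  rw [com_ij hij, T1_smul, T1_sub] at h
  have h2 := eq_neg_of_add_eq_zero_left h
  rw [h2]
  unfold ph
  push_cast
  ring

/-- the weight of a triple of indices, before division -/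
noncomputable def wt (f : MvPolynomial (Fin m × Fin m) ℂ) (l : Fin m → ℝ) (i j k : Fin m) : ℂ :=
  ph f l i * ((l j - l k : ℝ) : ℂ) + ph f l j * ((l k - l i : ℝ) : ℂ) +
    ph f l k * ((l i - l j : ℝ) : ℂ)

/-- **The third derivative in the directions of a triangle.** -/
theorem T3_triangle {f : MvPolynomial (Fin m × Fin m) ℂ} (hf : OInv f) {i j k : Fin m}
    (hij : i ≠ j) (hjk : j ≠ k) (hik : i ≠ k) (l : Fin m → ℝ) :
    (((l j - l i) * (l k - l j) * (l i - l k) : ℝ) : ℂ) * T3 f l (Sy i j) (Sy j k) (Sy k i) =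
      2 * wt f l i j k := by
  have h1 := rel3 hf hij l (Sy_symm k i) (Sy_symm j k)
  rw [com_jk hij hjk hik, com_ki hij hjk hik, T2_neg_right, Sy_comm i k] at h1
  have h2 := T2_pair hf hjk l
  have h3 := T2_pair hf hik.symm l
  unfold wt
  push_cast at h1 h2 h3 ⊢
  linear_combination ((l k : ℂ) - l j) * ((l i : ℂ) - l k) * h1 + ((l i : ℂ) - l k) * h2 -
    ((l k : ℂ) - l j) * h3

end Run7.h128.SI
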